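import Pool.Agent.Helper14.MR.Defs

namespace Pool.Agent.Helper6.MR

open Classical Pool.Agent.Helper14.MR

/-- R13 from R4, R7, R7', R12. -/
theorem R13_of
    (hR4 : ∀ {A J : Type} [Fintype A] [Fintype J], 16 ≤ Fintype.card J → ∀ c : A → J → ℕ,
      (∀ a, Fintype.card A + 2 * Fintype.card J ≤ ∑ j, c a j + 1) →
      ∀ Sv : J → Finset A → Prop,
      (∀ j S, (∀ a ∈ S, S.card + 2 ≤ c a j) → Sv j S) →
      (∀ j (F : Finset A) b, b ∉ F → (∀ a ∈ F, F.card + 3 ≤ c a j) →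
        F.card + 2 ≤ c b j → Sv j (insert b F)) →
      (∀ j (F X : Finset A) q, 1 ≤ q → Disjoint F X → (∀ a ∈ F, F.card + q + 3 ≤ c a j) →
        (∀ a ∈ X, F.card + q + 2 ≤ c a j) → 15 * q + 2 ≤ X.card →
        ∃ S, F ⊆ S ∧ S.card = F.card + q + 1 ∧ Sv j S) →
      ∃ S : J → Finset A, (∀ a, ∃ j, a ∈ S j) ∧ ∀ j, Sv j (S j))
    (hR7 : ∀ {A : Type} {n : ℕ}, 1 ≤ n → ∀ par : A → Finset (Set (Pt n)),
      (∀ a, Cut Adj (par a)) → ∀ S : Finset A, (∀ a ∈ S, S.card + 2 ≤ (par a).card) →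
      Serv par S)
    (hR7' : ∀ {A : Type} {n : ℕ}, 1 ≤ n → ∀ par : A → Finset (Set (Pt n)),
      (∀ a, Cut Adj (par a)) → ∀ (F : Finset A) (b : A), b ∉ F →
      (∀ a ∈ F, F.card + 3 ≤ (par a).card) → F.card + 2 ≤ (par b).card →
      Serv par (insert b F))
    (hR12 : ∀ {A : Type} {n : ℕ}, 1 ≤ n → ∀ (par : A → Finset (Set (Pt n))) (F X : Finset A)
      (q : ℕ), Setup par F X q → 15 * q + 2 ≤ X.card → Success par F X q)
    {A : Type} [Fintype A] {n m : ℕ} (hn : 1 ≤ n) (hm : 16 ≤ m)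
    (par : Fin m → A → Finset (Set (Pt n))) (hpar : ∀ j a, Cut Adj (par j a))
    (hc : ∀ a, Fintype.card A + 2 * m ≤ ∑ j, (par j a).card + 1) :
    ∃ (g : A → Fin m) (f : A → Set (Pt n)), (∀ a, f a ∈ par (g a) a) ∧
      ∀ a b, a ≠ b → g a = g b → Disjoint (f a) (f b) := by
  obtain ⟨S, hS1, hS2⟩ := hR4 (J := Fin m) (by rwa [Fintype.card_fin])
    (fun a j => (par j a).card) (by
      intro a
      rw [Fintype.card_fin]
      exact hc a) (fun j S => Serv (par j) S)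
    (fun j S hS => hR7 hn (par j) (hpar j) S hS)
    (fun j F b hb hF hbc => hR7' hn (par j) (hpar j) F b hb hF hbc)
    (fun j F X q _ hFX hF hX hq => by
      obtain ⟨S, h1, _, h3, h4⟩ := hR12 hn (par j) F X q ⟨hpar j, hFX, hF, hX⟩ hq
      exact ⟨S, h1, h3, h4⟩)
  choose g hg using hS1
  choose f hf1 hf2 using hS2
  refine ⟨g, fun a => f (g a) a, fun a => hf1 (g a) a (hg a), ?_⟩
  intro a b hab hgab
  have h1 : b ∈ S (g a) := by
    rw [hgab]
    exact hg b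
  have h2 := hf2 (g a) a (hg a) b h1 hab
  change Disjoint (f (g a) a) (f (g b) b)
  rw [← hgab]
  exact h2

end Pool.Agent.Helper6.MR
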