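import Pool.Agent.Helper14.MR.Cake

namespace Pool.Agent.Helper6.MR

open Set Pool.Agent.Helper14.MR

lemma seg_eq {V : Type} [DecidableEq V] (a b : V) (t : ℝ) (c : V) :
    seg a b t c = (1 - t) * (if c = a then 1 else 0) + t * (if c = b then 1 else 0) := rfl

/-- the copies are pairwise disjoint -/
lemma copy_inj {m : ℕ} {j j' : Fin m} {x : Fin m × Fin 4 → ℝ} (hx : x ∈ copy j)
    (hx' : x ∈ copy j') : j = j' := by
  by_contra hne
  obtain ⟨a, b, t, _, rfl⟩ := hx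
  obtain ⟨a', b', t', _, h⟩ := hx'
  have h1 : ∀ c : Fin 4, seg (j, a) (j, b) t (j, c) = 0 := by
    intro c
    rw [h, seg_eq, if_neg (fun h => hne (Prod.ext_iff.1 h).1),
      if_neg (fun h => hne (Prod.ext_iff.1 h).1), mul_zero, mul_zero, add_zero]
  have h2 := h1 a
  have h3 := h1 b
  rw [seg_eq, if_pos rfl] at h2
  rw [seg_eq, if_pos (rfl : ((j, b) : Fin m × Fin 4) = (j, b))] at h3
  by_cases hab : a = b
  · subst hab
    rw [if_pos rfl] at h2
    linarith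
  · have e1 : ((j, a) : Fin m × Fin 4) ≠ (j, b) := fun h => hab (Prod.ext_iff.1 h).2
    rw [if_neg e1] at h2
    rw [if_neg e1.symm] at h3
    linarith

lemma copy_sub {m : ℕ} (j : Fin m) : copy j ⊆ cake (K m) := by
  rintro x ⟨a, b, t, ht, rfl⟩
  refine ⟨(j, a), (j, b), t, ?_, ht, rfl⟩
  by_cases hab : a = b
  · left
    rw [hab]
  · right
    exact ⟨rfl, hab⟩

/-- R20 from R13, R15, R16, R16', R17. -/
theorem R20_of
    (hR13 : ∀ {A : Type} [Fintype A] {n m : ℕ}, 1 ≤ n → 16 ≤ m →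
      ∀ par : Fin m → A → Finset (Set (Pt n)), (∀ j a, Cut Adj (par j a)) →
      (∀ a, Fintype.card A + 2 * m ≤ ∑ j, (par j a).card + 1) →
      ∃ (g : A → Fin m) (f : A → Set (Pt n)), (∀ a, f a ∈ par (g a) a) ∧
        ∀ a b, a ≠ b → g a = g b → Disjoint (f a) (f b))
    (hR15 : ∀ {m : ℕ} {ι : Type} [Fintype ι] (P : ι → Set (Fin m × Fin 4 → ℝ)),
      (∀ i, IsPiece (K m) (P i)) → ∃ (n : ℕ) (c : ℝ → ℕ), 1 ≤ n ∧ Cell n c ∧
      ∀ i, ∀ j : Fin m, ∀ x ∈ copy j, ∀ y ∈ copy j, (∀ a, c (x (j, a)) = c (y (j, a))) →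
        (x ∈ P i ↔ y ∈ P i))
    (hR16 : ∀ {m n : ℕ} {c : ℝ → ℕ}, 1 ≤ n → Cell n c → ∀ (j : Fin m)
      (P : Set (Fin m × Fin 4 → ℝ)), P ⊆ copy j → IsConn P → Conn Adj (img n c j P))
    (hR16' : ∀ {m : ℕ} (P : Set (Fin m × Fin 4 → ℝ)), P ⊆ cake (K m) → IsConn P →
      P.Nonempty → ∃ j, P ⊆ copy j)
    (hR17 : ∀ {m n : ℕ} {c : ℝ → ℕ}, 1 ≤ n → Cell n c → ∀ j : Fin m,
      (∀ x ∈ (copy j : Set (Fin m × Fin 4 → ℝ)), ∃ d : Pt n, ∀ a, d.1 a = c (x (j, a))) ∧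
      (∀ d : Pt n, ∃ x ∈ (copy j : Set (Fin m × Fin 4 → ℝ)), ∀ a, d.1 a = c (x (j, a))))
    {m N : ℕ} (hm : 16 ≤ m) (_hN : 1 ≤ N)
    (P : Fin N → Fin (N + (2 * m - 1)) → Set (Fin m × Fin 4 → ℝ))
    (hP : ∀ i, IsPartition (K m) (P i)) (hne : ∀ i j, (P i j).Nonempty) :
    ∃ s : Fin N → Fin (N + (2 * m - 1)), ∀ i i', i ≠ i' →
      Disjoint (P i (s i)) (P i' (s i')) := by
  classical
  obtain ⟨n, c, hn, hc, had⟩ := hR15 (fun q : Fin N × Fin (N + (2 * m - 1)) => P q.1 q.2)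
    (fun q => ((hP q.1).1 q.2).1)
  have hadp : ∀ (i : Fin N) (l : Fin (N + (2 * m - 1))) (j : Fin m), ∀ x ∈ copy j, ∀ y ∈ copy j,
      (∀ a, c (x (j, a)) = c (y (j, a))) → (x ∈ P i l ↔ y ∈ P i l) :=
    fun i l => had (i, l)
  set L : Fin m → Fin N → Finset (Fin (N + (2 * m - 1))) := fun j i =>
    Finset.univ.filter (fun l => P i l ⊆ copy j) with hL
  have hLm : ∀ {j i l}, l ∈ L j i ↔ P i l ⊆ copy j := by
    intro j i l
    rw [hL]
    simp
  set par : Fin m → Fin N → Finset (Set (Pt n)) := fun j i =>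
    (L j i).image (fun l => img n c j (P i l)) with hpar
  -- a common point of two images
  have hcommon : ∀ {j : Fin m} {i i' : Fin N} {l l' : Fin (N + (2 * m - 1))}, l ∈ L j i →
      l' ∈ L j i' → ∀ d, d ∈ img n c j (P i l) → d ∈ img n c j (P i' l') →
      ∃ x ∈ P i l, x ∈ P i' l' := by
    intro j i i' l l' hl hl' d hd hd'
    obtain ⟨x, hx, hxd⟩ := hd
    obtain ⟨y, hy, hyd⟩ := hd'
    refine ⟨x, hx, ?_⟩
    rw [hadp i' l' j x (hLm.1 hl hx) y (hLm.1 hl' hy) (fun a => by rw [← hxd, ← hyd])]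
    exact hy
  have himne : ∀ {j : Fin m} {i : Fin N} {l : Fin (N + (2 * m - 1))}, l ∈ L j i →
      (img n c j (P i l)).Nonempty := by
    intro j i l hl
    obtain ⟨x, hx⟩ := hne i l
    obtain ⟨d, hd⟩ := (hR17 hn hc j).1 x (hLm.1 hl hx)
    exact ⟨d, x, hx, hd⟩
  have hdisj : ∀ {j : Fin m} {i : Fin N} {l l' : Fin (N + (2 * m - 1))}, l ∈ L j i →
      l' ∈ L j i → l ≠ l' → Disjoint (img n c j (P i l)) (img n c j (P i l')) := by
    intro j i l l' hl hl' hll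
    rw [Set.disjoint_left]
    intro d hd hd'
    obtain ⟨x, hx, hx'⟩ := hcommon hl hl' d hd hd'
    exact Set.disjoint_left.1 ((hP i).2.1 l l' hll) hx hx'
  have hinj : ∀ (j : Fin m) (i : Fin N), Set.InjOn (fun l => img n c j (P i l)) (L j i) := by
    intro j i l hl l' hl' he
    by_contra hll
    have h1 := hdisj hl hl' hll
    obtain ⟨d, hd⟩ := himne hl
    refine Set.disjoint_left.1 h1 hd ?_
    change img n c j (P i l) = img n c j (P i l') at he
    rw [← he]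
    exact hd
  have hin : ∀ (i : Fin N) (l : Fin (N + (2 * m - 1))), ∃ j, l ∈ L j i := by
    intro i l
    obtain ⟨j, hj⟩ := hR16' (P i l) (by
      rw [← (hP i).2.2]
      exact Set.subset_iUnion (P i) l) ((hP i).1 l).2 (hne i l)
    exact ⟨j, hLm.2 hj⟩
  obtain ⟨g, f, hf, hfd⟩ := hR13 (A := Fin N) hn hm par (by
    intro j i
    refine ⟨⟨?_, ?_, ?_⟩, ?_⟩
    · intro Q hQ
      rw [hpar, Finset.mem_image] at hQ
      obtain ⟨l, hl, rfl⟩ := hQ
      exact hR16 hn hc j _ (hLm.1 hl) ((hP i).1 l).2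
    · intro Q hQ
      rw [hpar, Finset.mem_image] at hQ
      obtain ⟨l, hl, rfl⟩ := hQ
      exact himne hl
    · intro Q hQ Q' hQ' hQQ
      rw [hpar, Finset.mem_image] at hQ hQ'
      obtain ⟨l, hl, rfl⟩ := hQ
      obtain ⟨l', hl', rfl⟩ := hQ'
      exact hdisj hl hl' (fun h => hQQ (by rw [h]))
    · intro d
      obtain ⟨x, hx, hxd⟩ := (hR17 hn hc j).2 d
      have h1 : x ∈ ⋃ l, P i l := by
        rw [(hP i).2.2]
        exact copy_sub j hx
      obtain ⟨l, hl⟩ := Set.mem_iUnion.1 h1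
      obtain ⟨j', hj'⟩ := hin i l
      have h2 : j' = j := copy_inj (hLm.1 hj' hl) hx
      subst h2
      exact ⟨img n c j' (P i l), Finset.mem_image.2 ⟨l, hj', rfl⟩, x, hl, hxd⟩) (by
    intro i
    have h1 : (Finset.univ : Finset (Fin (N + (2 * m - 1)))) ⊆
        Finset.univ.biUnion (fun j => L j i) := by
      intro l _
      obtain ⟨j, hj⟩ := hin i l
      exact Finset.mem_biUnion.2 ⟨j, Finset.mem_univ _, hj⟩
    have h2 := (Finset.card_le_card h1).trans Finset.card_biUnion_le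
    have h3 : ∀ j, (par j i).card = (L j i).card := fun j =>
      Finset.card_image_of_injOn (hinj j i)
    rw [Finset.sum_congr rfl fun j _ => h3 j, Fintype.card_fin]
    rw [Finset.card_univ, Fintype.card_fin] at h2
    omega)
  have hs : ∀ i, ∃ l, l ∈ L (g i) i ∧ img n c (g i) (P i l) = f i := by
    intro i
    have h1 := hf i
    rw [hpar, Finset.mem_image] at h1
    exact h1
  choose s hs1 hs2 using hs
  refine ⟨s, fun i i' hii => ?_⟩
  rw [Set.disjoint_left]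
  intro x hx hx'
  have hg : g i = g i' := copy_inj (hLm.1 (hs1 i) hx) (hLm.1 (hs1 i') hx')
  obtain ⟨d, hd⟩ := (hR17 hn hc (g i)).1 x (hLm.1 (hs1 i) hx)
  have h1 : d ∈ f i := by
    rw [← hs2 i]
    exact ⟨x, hx, hd⟩
  have h2 : d ∈ f i' := by
    rw [← hs2 i', ← hg]
    exact ⟨x, hx', hd⟩
  exact Set.disjoint_left.1 (hfd i i' hii hg) h1 h2

end Pool.Agent.Helper6.MR
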